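import Pool.Agent.H15.HB.Fin

/-!
Fixed-sign intervals for the product of two error terms in the full conjectured range: `F₁` of degree 2, `F₂ = ζ³`.
-/

set_option autoImplicit false

namespace Pool.Agent.Results.MP_be4568_nt.FullRangeZetaCube

open Pool.Agent.H15.SC

/-- Let `F₁`, `F₂` be functions with real coefficients satisfying the axioms of the Selberg class (without the Euler
product), of degrees 2 and 3, and suppose that `F₂` has the coefficients of `ζ³`, i.e. `f₂(n) = ∑_{k ∣ n} d(k)`.  Then for
every `0 < δ < 1/2` (the full conjectured range) property `(A_δ)` holds for the product of the error terms of `F₁` and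
`F₂`: with positive constants `c`, `C`, `T₀`, for every `T ≥ T₀` and each sign, `[T, 2T]` contains at least
`T^(1-δ)` pairwise disjoint intervals of length at least `C T^δ` on which the product has that sign and absolute
value `> c T^(7/12)`. -/
theorem result {D₁ D₂ : SelData} (h₁ : IsSel D₁ 2) (h₂ : IsSel D₂ 3)
    (hf : ∀ n : ℕ, 1 ≤ n → D₂.f n = ∑ k ∈ n.divisors, (k.divisors.card : ℝ))
    (δ : ℝ) (hδ0 : 0 < δ) (hδ1 : δ < 1/2) :
    PropA (fun x => D₁.E x * D₂.E x) (7/12) δ :=
  Pool.Agent.H15.HB.propA_cube h₁ h₂ hf δ hδ0 hδ1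

end Pool.Agent.Results.MP_be4568_nt.FullRangeZetaCube
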