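import Pool.Agent.H15.SC.RFinal

/-!
Fixed-sign intervals for the product of two error terms: `F₁` of degree 2 and `F₂` of degree 3 with coefficients
bounded in mean square.
-/

set_option autoImplicit false

namespace Pool.Agent.Results.MP_be4568_nt.MeanSquareCubic

open Pool.Agent.H15.SC

/-- Let `F₁`, `F₂` be functions with real coefficients satisfying the axioms of the Selberg class (without the Euler
product), of degrees 2 and 3, and suppose that `∑_{n ≤ N} f₂(n)² ≤ C N` for all `N` (as is known for the cuspidal
automorphic `L`-functions).  Then for every `0 < δ < 1/3` property `(A_δ)` holds for the product of the error terms of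
`F₁` and `F₂`: with positive constants `c`, `C`, `T₀`, for every `T ≥ T₀` and each sign, `[T, 2T]` contains at least
`T^(1-δ)` pairwise disjoint intervals of length at least `C T^δ` on which the product has that sign and absolute
value `> c T^(7/12)`. -/
theorem result {D₁ D₂ : SelData} (h₁ : IsSel D₁ 2) (h₂ : IsSel D₂ 3)
    (hms : ∃ C : ℝ, ∀ N : ℕ, ∑ n ∈ Finset.Icc 1 N, D₂.f n ^ 2 ≤ C * N)
    (δ : ℝ) (hδ0 : 0 < δ) (hδ1 : δ < 1/3) :
    PropA (fun x => D₁.E x * D₂.E x) (7/12) δ :=
  propA_rs h₁ h₂ hms δ hδ0 hδ1

end Pool.Agent.Results.MP_be4568_nt.MeanSquareCubic
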