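import Pool.Agent.H15.SC.Final

/-!
Fixed-sign intervals for the product of two error terms: `F₁` of degree 2 and a reducible `F₂ = L(s,ψ) G` of degree 3.
-/

set_option autoImplicit false

namespace Pool.Agent.Results.MP_be4568_nt.ReducibleCubic

open Pool.Agent.H15.SC

/-- Let `F₁`, `F₂`, `G` be functions with real coefficients satisfying the axioms of the Selberg class (without the Euler
product), of degrees 2, 3, 2, and suppose that `F₂ = L(s,ψ) G` with a periodic `ψ : ℕ → ℝ` (for instance
`F₂ = ζ G`).  Then for every `0 < δ < 4/9` property `(A_δ)` holds for the product of the error terms of `F₁` and `F₂`: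
with positive constants `c`, `C`, `T₀`, for every `T ≥ T₀` and each sign, `[T, 2T]` contains at least `T^(1-δ)` pairwise
disjoint intervals of length at least `C T^δ` on which the product has that sign and absolute value `> c T^(7/12)`. -/
theorem result {D₁ D₂ G : SelData} (h₁ : IsSel D₁ 2) (h₂ : IsSel D₂ 3) (hG : IsSel G 2)
    (q : ℕ) (hq : 1 ≤ q) (ψ : ℕ → ℝ) (hψ : ∀ n, ψ (n + q) = ψ n)
    (hfac : ∀ n : ℕ, 1 ≤ n → D₂.f n = ∑ k ∈ n.divisors, ψ (n / k) * G.f k)
    (δ : ℝ) (hδ0 : 0 < δ) (hδ1 : δ < 4/9) :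
    PropA (fun x => D₁.E x * D₂.E x) (7/12) δ :=
  propA_main h₁ h₂ hG q hq ψ hψ hfac δ hδ0 hδ1

end Pool.Agent.Results.MP_be4568_nt.ReducibleCubic
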